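import Pool.Agent.N414.EqProof

/-!
# An equistable graph that is not weakly CIS
-/

set_option autoImplicit false

namespace Pool.Agent.Results.MP_59918e_co.EquistableNotWeaklyCIS

open Pool.Agent.N414.Eq

/-- There is a graph on 11 vertices that is equistable, and even strongly equistable, but not
weakly CIS. -/
theorem result : ∃ G : SimpleGraph (Fin 11),
    Equistable G ∧ StronglyEquistable G ∧ ¬ WeaklyCIS G :=
  main

end Pool.Agent.Results.MP_59918e_co.EquistableNotWeaklyCIS
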